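import Pool.Agent.W5h36.TQ.Fin
import Pool.Agent.W5h35.CU.Fin

/-!
# The `L`-function of `H³`
-/

set_option autoImplicit false

namespace Pool.Agent.W5h36.TQ

open Finset Matrix
open Pool.Agent.Results.MP_696deb_nt.JointProportionX14X49 (Family Good fam_adm fam_adm14)
open Pool.Agent.Y19.QT (IsLFun)
open Pool.Agent.Y687.MQ (ZB)

/-- `F` is the entire `L`-function of `H³`, without the Euler factors at the primes dividing `N` -/
def IsL (A B : Matrix (Fin 6) (Fin 6) ℤ) (N : ℤ) (F : ℂ → ℂ) : Prop :=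
  Differentiable ℂ F ∧ ∀ s : ℂ, (5 : ℝ) / 2 < s.re →
    (∀ p : {p : ℕ // p.Prime ∧ ¬ (p : ℤ) ∣ N}, haveI := Fact.mk p.2.1; Summable (term A B p.1 s)) ∧
    HasProd (fun p : {p : ℕ // p.Prime ∧ ¬ (p : ℤ) ∣ N} =>
      haveI := Fact.mk p.2.1; Complex.exp (∑' k, term A B p.1 s k)) (F s)

theorem dvd_of_smooth {p : ℕ} (hp : p.Prime) {a b : ℤ} {k : ℕ} (h : a ∣ b ^ k)
    (hd : (p : ℤ) ∣ a) : (p : ℤ) ∣ b :=
  (Nat.prime_iff_prime_int.1 hp).dvd_of_dvd_pow (hd.trans h)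

/-- the discriminant of the pencils attached to `D` -/
theorem disc_of {D c : ℤ} {A B : Matrix (Fin 6) (Fin 6) ℤ} (hdet : ∀ x z : ℤ,
    -(x • A + z • B).det =
      5 * D * c ^ 2 * (x ^ 2 - z ^ 2) * (8 * x ^ 4 + 49 * x ^ 2 * z ^ 2 + 343 * z ^ 4)) :
    Disc A B (8 * kap D c) (41 * kap D c) (294 * kap D c) (-343 * kap D c) := by
  intro x z
  rw [hdet]
  unfold kap
  ring

theorem good_of {D c : ℤ} {p : ℕ} (hp : p.Prime) (h : ¬ (p : ℤ) ∣ 210 * D * c) :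
    ¬ (p : ℤ) ∣ 2 * (8 * kap D c) * (-343 * kap D c) *
      dsc (8 * kap D c) (41 * kap D c) (294 * kap D c) (-343 * kap D c) := by
  intro hd
  apply h
  refine dvd_of_smooth hp (k := 12) ?_ hd
  refine ⟨3 ^ 12 * 7 ^ 6 * D ^ 6, ?_⟩
  unfold dsc kap
  ring

/-- the traces of the first curve -/
theorem ap14 {D c : ℤ} {p : ℕ} [Fact p.Prime] (h : ¬ (p : ℤ) ∣ 210 * D * c) :
    ap (41 * kap D c) (8 * kap D c * (294 * kap D c)) ((8 * kap D c) ^ 2 * (-343 * kap D c)) p =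
      ap 0 (5805 * D ^ 2) (-285714 * D ^ 3) p := by
  have hp : p.Prime := Fact.out
  have hpi := Nat.prime_iff_prime_int.1 hp
  have hne : ∀ a : ℤ, ¬ (p : ℤ) ∣ a → (a : ZMod p) ≠ 0 := by
    intro a ha h'
    exact ha ((ZMod.intCast_zmod_eq_zero_iff_dvd a p).1 h')
  have d2 : ¬ (p : ℤ) ∣ 2 := fun h' => h (h'.trans ⟨105 * D * c, by ring⟩)
  have h2 : p ≠ 2 := by
    rintro rfl
    exact d2 (by norm_num)
  have h3 : (3 : ZMod p) ≠ 0 := by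
    have := hne 3 fun h' => h (h'.trans ⟨70 * D * c, by ring⟩)
    exact_mod_cast this
  have h5 : (5 : ZMod p) ≠ 0 := by
    have := hne 5 fun h' => h (h'.trans ⟨42 * D * c, by ring⟩)
    exact_mod_cast this
  have hc : (c : ZMod p) ≠ 0 := hne c fun h' => h (h'.mul_left _)
  have h9 : (9 : ZMod p) ≠ 0 := by
    rw [show (9 : ZMod p) = 3 ^ 2 by norm_num]
    exact pow_ne_zero 2 h3
  have h27 : (27 : ZMod p) ≠ 0 := by
    rw [show (27 : ZMod p) = 3 ^ 3 by norm_num]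
    exact pow_ne_zero 3 h3
  have h25 : (25 : ZMod p) ≠ 0 := by
    rw [show (25 : ZMod p) = 5 ^ 2 by norm_num]
    exact pow_ne_zero 2 h5
  have h125 : (125 : ZMod p) ≠ 0 := by
    rw [show (125 : ZMod p) = 5 ^ 3 by norm_num]
    exact pow_ne_zero 3 h5
  refine ap_subst h2 (u := 25 * (c : ZMod p) ^ 2 / 9)
    (v := 40 * (D : ZMod p) * (c : ZMod p) ^ 2 - 25 * (c : ZMod p) ^ 2 * (39 * D) / 9)
    (w := 125 * (c : ZMod p) ^ 3 / 27) (div_ne_zero (mul_ne_zero h25 (pow_ne_zero 2 hc)) h9)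
    (div_ne_zero (mul_ne_zero h125 (pow_ne_zero 3 hc)) h27) ?_
  intro x
  have := subst14 h3 (D : ZMod p) c x
  unfold kap
  push_cast
  exact this

/-- the traces of the second curve -/
theorem ap49 {D c : ℤ} {p : ℕ} [Fact p.Prime] (h : ¬ (p : ℤ) ∣ 210 * D * c) :
    ap (294 * kap D c) (-343 * kap D c * (41 * kap D c)) ((-343 * kap D c) ^ 2 * (8 * kap D c)) p =
      ap 0 (-35 * (-7 * D) ^ 2) (-98 * (-7 * D) ^ 3) p := by
  have hp : p.Prime := Fact.out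
  have hpi := Nat.prime_iff_prime_int.1 hp
  have hne : ∀ a : ℤ, ¬ (p : ℤ) ∣ a → (a : ZMod p) ≠ 0 := by
    intro a ha h'
    exact ha ((ZMod.intCast_zmod_eq_zero_iff_dvd a p).1 h')
  have d2 : ¬ (p : ℤ) ∣ 2 := fun h' => h (h'.trans ⟨105 * D * c, by ring⟩)
  have h2 : p ≠ 2 := by
    rintro rfl
    exact d2 (by norm_num)
  have h5 : (5 : ZMod p) ≠ 0 := by
    have := hne 5 fun h' => h (h'.trans ⟨42 * D * c, by ring⟩)
    exact_mod_cast this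
  have hc : (c : ZMod p) ≠ 0 := hne c fun h' => h (h'.mul_left _)
  have h25 : (25 : ZMod p) ≠ 0 := by
    rw [show (25 : ZMod p) = 5 ^ 2 by norm_num]
    exact pow_ne_zero 2 h5
  have h125 : (125 : ZMod p) ≠ 0 := by
    rw [show (125 : ZMod p) = 5 ^ 3 by norm_num]
    exact pow_ne_zero 3 h5
  refine ap_subst h2 (u := 25 * (c : ZMod p) ^ 2) (v := -490 * (D : ZMod p) * (c : ZMod p) ^ 2)
    (w := 125 * (c : ZMod p) ^ 3) (mul_ne_zero h25 (pow_ne_zero 2 hc))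
    (mul_ne_zero h125 (pow_ne_zero 3 hc)) ?_
  intro x
  have := subst49 (D : ZMod p) c x
  unfold kap
  push_cast
  exact this

/-- the main part -/
theorem main {D : ℕ} (h : Family D) (h14 : Good false D) (h49 : Good true D)
    {A B : Matrix (Fin 6) (Fin 6) ℤ} (hA : A.IsSymm) (hB : B.IsSymm) {c : ℤ} (hc : c ≠ 0)
    (hdet : ∀ x z : ℤ, -(x • A + z • B).det =
      5 * D * c ^ 2 * (x ^ 2 - z ^ 2) * (8 * x ^ 4 + 49 * x ^ 2 * z ^ 2 + 343 * z ^ 4)) :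
    (∃ F : ℂ → ℂ, IsL A B (210 * D * c) F ∧ F 2 ≠ 0) ∧
    {q : ℚ × ℚ | q.2 ^ 2 = q.1 ^ 3 + ((41 * kap D c : ℤ) : ℚ) * q.1 ^ 2 +
      ((8 * kap D c * (294 * kap D c) : ℤ) : ℚ) * q.1 +
      (((8 * kap D c) ^ 2 * (-343 * kap D c) : ℤ) : ℚ)}.Finite ∧
    {q : ℚ × ℚ | q.2 ^ 2 = q.1 ^ 3 + ((294 * kap D c : ℤ) : ℚ) * q.1 ^ 2 +
      ((-343 * kap D c * (41 * kap D c) : ℤ) : ℚ) * q.1 +
      (((-343 * kap D c) ^ 2 * (8 * kap D c) : ℤ) : ℚ)}.Finite := by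
  have hD : (D : ℤ) ≠ 0 := by exact_mod_cast h.1.ne_zero
  obtain ⟨⟨F1, hF1, hF1'⟩, hf1⟩ := zb14 h h14
  obtain ⟨⟨F2, hF2, hF2'⟩, hf2⟩ := zb49 h h49
  have n1 : F1 1 ≠ 0 := (hF1.1.analyticAt 1).analyticOrderAt_eq_zero.1 hF1'
  have n2 : F2 1 ≠ 0 := (hF2.1.analyticAt 1).analyticOrderAt_eq_zero.1 hF2'
  set N : ℤ := 210 * D * c with hNdef
  have hN : N ≠ 0 := mul_ne_zero (mul_ne_zero (by norm_num) hD) hc
  obtain ⟨G1, d1, m1, p1⟩ := adjust hF1 n1 hN (by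
    intro p hp hpd
    refine dvd_of_smooth hp (k := 15) ?_ hpd
    rw [hNdef]
    exact ⟨-(3 ^ 3 * 5 ^ 15 * 7 ^ 12 * D ^ 9 * c ^ 15), by ring⟩)
  obtain ⟨G2, d2, m2, p2⟩ := adjust hF2 n2 hN (by
    intro p hp hpd
    refine dvd_of_smooth hp (k := 15) ?_ hpd
    rw [hNdef]
    exact ⟨-(2 ^ 6 * 3 ^ 15 * 5 ^ 15 * 7 ^ 6 * D ^ 9 * c ^ 15), by ring⟩)
  have hdisc := disc_of hdet
  have heul : ∀ (p : {p : ℕ // p.Prime ∧ ¬ (p : ℤ) ∣ N}) (s : ℂ), (3 : ℝ) / 2 < s.re →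
      haveI := Fact.mk p.2.1
      Summable (term A B p.1 s) ∧ Complex.exp (∑' k, term A B p.1 s k) =
        ell 0 (5805 * (D : ℤ) ^ 2) (-285714 * (D : ℤ) ^ 3) p.1 (s - 1) *
        ell 0 (-35 * (-7 * (D : ℤ)) ^ 2) (-98 * (-7 * (D : ℤ)) ^ 3) p.1 (s - 1) := by
    intro p s hs
    haveI := Fact.mk p.2.1
    have h1 := euler hA hB hdisc (good_of p.2.1 p.2.2) hs
    rw [ap14 p.2.2, ap49 p.2.2] at h1
    exact h1
  refine ⟨⟨fun s => G1 (s - 1) * G2 (s - 1), ⟨?_, ?_⟩, ?_⟩, ?_, ?_⟩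
  · exact (d1.comp (differentiable_id.sub_const _)).mul (d2.comp (differentiable_id.sub_const _))
  · intro s hs
    refine ⟨fun p => (heul p s (by linarith)).1, ?_⟩
    have hs' : (3 : ℝ) / 2 < (s - 1).re := by
      rw [Complex.sub_re, Complex.one_re]
      linarith
    refine ((p1 (s - 1) hs').mul (p2 (s - 1) hs')).congr_fun ?_
    intro p
    exact (heul p s (by linarith)).2
  · have e : (2 : ℂ) - 1 = 1 := by norm_num
    simp only [e]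
    exact mul_ne_zero m1 m2
  · have hcQ : (c : ℚ) ≠ 0 := by exact_mod_cast hc
    refine fin_subst (a' := 0) (b' := 5805 * (D : ℤ) ^ 2) (c' := -285714 * (D : ℤ) ^ 3)
      (u := 25 * (c : ℚ) ^ 2 / 9)
      (v := 40 * (D : ℚ) * (c : ℚ) ^ 2 - 25 * (c : ℚ) ^ 2 * (39 * D) / 9)
      (w := 125 * (c : ℚ) ^ 3 / 27) (by positivity) (by positivity) ?_ ?_
    · intro x
      have := subst14 (by norm_num : (3 : ℚ) ≠ 0) (D : ℚ) c x
      unfold kap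
      push_cast
      exact this
    · simpa using hf1
  · have hcQ : (c : ℚ) ≠ 0 := by exact_mod_cast hc
    refine fin_subst (a' := 0) (b' := -35 * (-7 * (D : ℤ)) ^ 2) (c' := -98 * (-7 * (D : ℤ)) ^ 3)
      (u := 25 * (c : ℚ) ^ 2) (v := -490 * (D : ℚ) * (c : ℚ) ^ 2) (w := 125 * (c : ℚ) ^ 3)
      (by positivity) (by positivity) ?_ ?_
    · intro x
      have := subst49 (D : ℚ) c x
      unfold kap
      push_cast
      exact this
    · simpa using hf2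

end Pool.Agent.W5h36.TQ
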