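import Pool.Agent.W5h36.TQ.Count

/-!
# Projective points, and the corank at the simple zeros of the discriminant
-/

set_option autoImplicit false

namespace Pool.Agent.W5h36.TQ

open Finset Matrix Polynomial
open scoped LinearAlgebra.Projectivization

section proj

variable {K : Type} [Field K] [Fintype K]
variable {ι : Type} [Fintype ι] [DecidableEq ι]

theorem proj_count (Q : (ι → K) → Prop) (hQ : ∀ (c : K) (v : ι → K), c ≠ 0 → (Q (c • v) ↔ Q v))
    (h0 : Q 0) :
    Nat.card {x : ι → K // Q x} = 1 + (Fintype.card K - 1) *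
      Nat.card {P : ℙ K (ι → K) // Q P.rep} := by
  classical
  have e1 : Nat.card ({P : ℙ K (ι → K) // Q P.rep} × Kˣ) =
      Nat.card {x : ι → K // x ≠ 0 ∧ Q x} := by
    refine Nat.card_congr (Equiv.ofBijective (fun t => ⟨(t.2 : K) • t.1.1.rep, ?_, ?_⟩) ⟨?_, ?_⟩)
    · exact smul_ne_zero t.2.ne_zero t.1.1.rep_nonzero
    · exact (hQ _ _ t.2.ne_zero).2 t.1.2
    · rintro ⟨⟨P, hP⟩, u⟩ ⟨⟨R, hR⟩, v⟩ h
      simp only [Subtype.mk.injEq] at h
      have hPQ : P = R := by
        rw [← P.mk_rep, ← R.mk_rep, Projectivization.mk_eq_mk_iff']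
        refine ⟨(u : K)⁻¹ * v, ?_⟩
        rw [mul_smul, ← h, smul_smul, inv_mul_cancel₀ u.ne_zero, one_smul]
      subst hPQ
      have huv : (u : K) = v := smul_left_injective K P.rep_nonzero h
      simp only [Prod.mk.injEq, true_and]
      exact Units.ext huv
    · rintro ⟨x, hx, hf⟩
      obtain ⟨a, ha⟩ := Projectivization.exists_smul_eq_mk_rep K x hx
      refine ⟨⟨⟨Projectivization.mk K x hx, ?_⟩, a⁻¹⟩, ?_⟩
      · rw [← ha, Units.smul_def]
        exact (hQ _ _ a.ne_zero).2 hf
      · simp only [Subtype.mk.injEq]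
        rw [← ha, Units.smul_def, smul_smul, Units.inv_mul, one_smul]
  have e2 : Nat.card {x : ι → K // Q x} = 1 + Nat.card {x : ι → K // x ≠ 0 ∧ Q x} := by
    simp only [Nat.card_eq_fintype_card, Fintype.card_subtype]
    have : (univ.filter fun x : ι → K => Q x) =
        insert 0 (univ.filter fun x : ι → K => x ≠ 0 ∧ Q x) := by
      ext x
      simp only [mem_filter, mem_univ, true_and, mem_insert]
      by_cases h : x = 0
      · subst h
        simp [h0]
      · simp [h]
    rw [this, card_insert_of_notMem (by simp), add_comm]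
  rw [e2, ← e1, Nat.card_prod, mul_comm (Fintype.card K - 1)]
  congr 2
  rw [Nat.card_eq_fintype_card, Fintype.card_units]

/-- the number of points of the intersection of the two quadrics `xᵀ A x = 0` and `xᵀ B x = 0` -/
noncomputable def ptsF (A B : Matrix ι ι K) : ℕ :=
  Nat.card {P : ℙ K (ι → K) // P.rep ⬝ᵥ A *ᵥ P.rep = 0 ∧ P.rep ⬝ᵥ B *ᵥ P.rep = 0}

theorem aff_pts (A B : Matrix ι ι K) :
    (aff A B : ℤ) = 1 + ((Fintype.card K : ℤ) - 1) * ptsF A B := by
  have h := proj_count (K := K) (fun x : ι → K => x ⬝ᵥ A *ᵥ x = 0 ∧ x ⬝ᵥ B *ᵥ x = 0) (by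
    intro c v hc
    simp only [mulVec_smul, dotProduct_smul, smul_dotProduct, smul_eq_mul, mul_eq_zero, hc,
      false_or]) (by simp)
  unfold aff ptsF
  rw [h]
  push_cast [Nat.cast_sub (Fintype.card_pos (α := K))]
  ring

/-- **the number of points** -/
theorem pts_count [DecidableEq K] (hK : ringChar K ≠ 2) {m : ℕ} (hm : 2 ≤ m)
    (hι : Fintype.card ι = 2 * m) {A B : Matrix ι ι K} (hA : A.IsSymm) (hB : B.IsSymm)
    (hr : ∀ v : K × K, v ≠ 0 → 2 * m - 1 ≤ (v.1 • A + v.2 • B).rank) :
    (ptsF A B : ℤ) = ∑ j ∈ range (2 * m - 2), (Fintype.card K : ℤ) ^ j +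
      (Fintype.card K : ℤ) ^ (m - 2) * lineSum m A B := by
  have h1 := aff_count hK (by omega) hι hA hB hr
  rw [aff_pts] at h1
  set q : ℤ := (Fintype.card K : ℤ) with hq
  have hq1 : (1 : ℤ) < q := by
    rw [hq]
    exact_mod_cast Fintype.one_lt_card (α := K)
  have hq0 : q ≠ 0 := by omega
  have hq10 : q - 1 ≠ 0 := by omega
  have h2 := mul_geom_sum q (2 * m - 2)
  have e1 : q ^ (2 * m) = q ^ 2 * q ^ (2 * m - 2) := by
    rw [← pow_add]
    congr 1
    omega
  have e2 : q ^ m = q ^ 2 * q ^ (m - 2) := by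
    rw [← pow_add]
    congr 1
    omega
  rw [e1, e2] at h1
  apply mul_left_cancel₀ (mul_ne_zero (pow_ne_zero 2 hq0) hq10)
  linear_combination h1 - q ^ 2 * h2

end proj

section corank

variable {K : Type} [Field K] [Fintype K] [DecidableEq K]
variable {ι : Type} [Fintype ι] [DecidableEq ι]

/-- if the rank of `M` is at most the order minus `2`, then `det (M + X N)` is divisible by `X²` -/
theorem sq_dvd (hK : ringChar K ≠ 2) {M : Matrix ι ι K} (hM : M.IsSymm)
    (hr : M.rank + 2 ≤ Fintype.card ι) (N : Matrix ι ι K) :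
    (X ^ 2 : K[X]) ∣ (M.map C + (X : K[X]) • N.map C).det := by
  obtain ⟨P, w, hP, hw⟩ := exists_diag hK M hM
  have hrank : M.rank = (univ.filter fun i => ¬ w i = 0).card := by
    have hPt : IsUnit Pᵀ.det := by rwa [det_transpose]
    have h1 : (Pᵀ * M * P).rank = M.rank := by
      rw [rank_mul_eq_left_of_isUnit_det _ _ hP, rank_mul_eq_right_of_isUnit_det _ _ hPt]
    rw [← h1, hw, rank_diagonal, Fintype.card_subtype]
  have hz : 2 ≤ (univ.filter fun i => w i = 0).card := by
    have := card_filter_add_card_filter_not (s := (univ : Finset ι)) (fun i => w i = 0)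
    rw [card_univ] at this
    omega
  set N' : Matrix ι ι K := Pᵀ * N * P with hN'
  let e : ι → K[X] := fun i => if w i = 0 then X else 1
  let Q : Matrix ι ι K[X] := fun i j => if w i = 0 then C (N' i j) else
    C (diagonal w i j) + X * C (N' i j)
  have h1 : (P.map C)ᵀ * (M.map C + (X : K[X]) • N.map C) * P.map C = diagonal e * Q := by
    have h2 : (P.map C)ᵀ * (M.map C + (X : K[X]) • N.map C) * P.map C =
        (diagonal w).map C + (X : K[X]) • N'.map C := by
      rw [← hw, hN', Matrix.mul_add, Matrix.add_mul, Matrix.mul_smul, Matrix.smul_mul,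
        Matrix.map_mul, Matrix.map_mul, Matrix.map_mul, Matrix.map_mul, transpose_map]
    rw [h2]
    ext1 i j
    rw [diagonal_mul, Matrix.add_apply, Matrix.smul_apply, map_apply, map_apply, smul_eq_mul]
    by_cases hi : w i = 0
    · have hd : diagonal w i j = 0 := by
        by_cases hij : i = j
        · subst hij
          rw [diagonal_apply_eq, hi]
        · rw [diagonal_apply_ne _ hij]
      simp only [e, Q, if_pos hi, hd, map_zero, zero_add]
    · simp only [e, Q, if_neg hi, one_mul]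
  have h3 := congrArg Matrix.det h1
  rw [det_mul, det_mul, det_mul, det_transpose, det_diagonal] at h3
  have h4 : (P.map C).det = C P.det := by
    rw [RingHom.map_det]
    rfl
  have h5 : (X ^ 2 : K[X]) ∣ ∏ i, e i := by
    have : ∏ i, e i = X ^ (univ.filter fun i => w i = 0).card := by
      simp only [e]
      rw [prod_ite, prod_const_one, mul_one, prod_const]
    rw [this]
    exact pow_dvd_pow _ hz
  have h6 : (X ^ 2 : K[X]) ∣ (P.map C).det * (M.map C + (X : K[X]) • N.map C).det *
      (P.map C).det := by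
    rw [h3]
    exact Dvd.dvd.mul_right h5 _
  have hu : IsUnit (P.map C).det := by
    rw [h4]
    exact hP.map C
  rw [mul_comm, ← mul_assoc] at h6
  exact (hu.mul hu).dvd_mul_left.1 h6

/-- the determinant of the pencil over a ring -/
theorem det_univ (A B : Matrix ι ι ℤ) (α β γ δ : ℤ)
    (h : ∀ x z : ℤ, -(x • A + z • B).det =
      α * x ^ 6 + β * x ^ 4 * z ^ 2 + γ * x ^ 2 * z ^ 4 + δ * z ^ 6)
    {R : Type} [CommRing R] (x z : R) :
    -(x • A.map (Int.castRingHom R) + z • B.map (Int.castRingHom R)).det =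
      (α : R) * x ^ 6 + (β : R) * x ^ 4 * z ^ 2 + (γ : R) * x ^ 2 * z ^ 4 + (δ : R) * z ^ 6 := by
  let M : Matrix ι ι (MvPolynomial (Fin 2) ℤ) :=
    (MvPolynomial.X 0 : MvPolynomial (Fin 2) ℤ) • A.map (fun a => MvPolynomial.C a) +
      (MvPolynomial.X 1 : MvPolynomial (Fin 2) ℤ) • B.map (fun a => MvPolynomial.C a)
  let F : MvPolynomial (Fin 2) ℤ := MvPolynomial.C α * MvPolynomial.X 0 ^ 6 +
    MvPolynomial.C β * MvPolynomial.X 0 ^ 4 * MvPolynomial.X 1 ^ 2 +
    MvPolynomial.C γ * MvPolynomial.X 0 ^ 2 * MvPolynomial.X 1 ^ 4 +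
    MvPolynomial.C δ * MvPolynomial.X 1 ^ 6
  have key : ∀ {S : Type} [CommRing S] (u : Fin 2 → S),
      MvPolynomial.eval₂Hom (Int.castRingHom S) u M.det =
        (u 0 • A.map (Int.castRingHom S) + u 1 • B.map (Int.castRingHom S)).det := by
    intro S _ u
    rw [RingHom.map_det]
    congr 1
    ext i j
    simp only [M, RingHom.mapMatrix_apply, map_apply, Matrix.add_apply, Matrix.smul_apply,
      smul_eq_mul, map_add, map_mul, MvPolynomial.coe_eval₂Hom, MvPolynomial.eval₂_X,
      MvPolynomial.eval₂_C, MvPolynomial.eval₂_mul]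
  have hid : -M.det = F := by
    refine MvPolynomial.funext fun u => ?_
    have h1 := key (S := ℤ) u
    have h2 : MvPolynomial.eval₂Hom (Int.castRingHom ℤ) u M.det = MvPolynomial.eval u M.det := by
      rfl
    rw [h2] at h1
    rw [map_neg, h1]
    have h3 := h (u 0) (u 1)
    have e1 : A.map (Int.castRingHom ℤ) = A := by ext i j; simp
    have e2 : B.map (Int.castRingHom ℤ) = B := by ext i j; simp
    rw [e1, e2, h3]
    simp [F]
  have h4 := congrArg (MvPolynomial.eval₂Hom (Int.castRingHom R) ![x, z]) hid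
  rw [map_neg, key] at h4
  simp only [F, map_add, map_mul, map_pow, MvPolynomial.coe_eval₂Hom, MvPolynomial.eval₂_X,
    MvPolynomial.eval₂_C, MvPolynomial.eval₂_mul, MvPolynomial.eval₂_add, MvPolynomial.eval₂_pow,
    Matrix.cons_val_zero, Matrix.cons_val_one] at h4
  exact h4

omit [Fintype K] [DecidableEq K] in
theorem eval_of_dvd {p : K[X]} (h : (X ^ 2 : K[X]) ∣ p) :
    p.eval 0 = 0 ∧ p.derivative.eval 0 = 0 := by
  obtain ⟨q, rfl⟩ := h
  constructor
  · simp
  · simp [derivative_mul]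

/-- the corank at the zeros of the discriminant is one -/
theorem rank_ge (hK : ringChar K ≠ 2) {A B : Matrix ι ι K} (hι : Fintype.card ι = 6)
    (hA : A.IsSymm) (hB : B.IsSymm) {α β γ δ : K}
    (hdet : ∀ x z : K[X], -(x • A.map C + z • B.map C).det =
      C α * x ^ 6 + C β * x ^ 4 * z ^ 2 + C γ * x ^ 2 * z ^ 4 + C δ * z ^ 6)
    (h1 : α ≠ 0) (h2 : δ ≠ 0)
    (h3 : β ^ 2 * γ ^ 2 - 4 * α * γ ^ 3 - 4 * β ^ 3 * δ - 27 * α ^ 2 * δ ^ 2 +
      18 * α * β * γ * δ ≠ 0) (v : K × K) (hv : v ≠ 0) :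
    2 * 3 - 1 ≤ (v.1 • A + v.2 • B).rank := by
  by_contra hlt
  obtain ⟨a, b⟩ := v
  simp only at hlt
  have hsym : (a • A + b • B).IsSymm := (hA.smul a).add (hB.smul b)
  have h4 := sq_dvd hK hsym (by omega) A
  have h5 : (a • A + b • B).map C + (X : K[X]) • A.map C =
      (C a + X) • A.map C + C b • B.map C := by
    ext1 i j
    simp only [Matrix.add_apply, Matrix.smul_apply, map_apply, smul_eq_mul, map_add, map_mul]
    ring
  rw [h5, ← dvd_neg, hdet] at h4
  obtain ⟨h6, h7⟩ := eval_of_dvd h4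
  have hc2 : (2 : K) ≠ 0 := Ring.two_ne_zero hK
  simp at h6
  simp [derivative_pow] at h7
  by_cases hb : b = 0
  · subst hb
    have ha : a ≠ 0 := fun h => hv (by rw [h]; rfl)
    simp [h1, ha] at h6
  · by_cases ha : a = 0
    · subst ha
      simp [h2, hb] at h6
    · set t : K := a ^ 2 / b ^ 2 with ht
      have hb2 : b ^ 2 ≠ 0 := pow_ne_zero 2 hb
      have e1 : α * t ^ 3 + β * t ^ 2 + γ * t + δ = 0 := by
        rw [ht]
        field_simp
        linear_combination h6
      have e2 : 3 * α * t ^ 2 + 2 * β * t + γ = 0 := by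
        rw [ht]
        field_simp
        apply mul_left_cancel₀ (mul_ne_zero hc2 ha)
        linear_combination h7
      apply h3
      have hγ : γ = -3 * α * t ^ 2 - 2 * β * t := by linear_combination e2
      subst hγ
      have hδ : δ = 2 * α * t ^ 3 + β * t ^ 2 := by linear_combination e1
      subst hδ
      ring

end corank

end Pool.Agent.W5h36.TQ
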