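import Pool.Agent.W5h36.TQ.Gauss

/-!
# The number of points of the intersection of two quadrics over a finite field
-/

set_option autoImplicit false

namespace Pool.Agent.W5h36.TQ

open Finset Matrix
open scoped LinearAlgebra.Projectivization

section

variable {K : Type} [Field K] [Fintype K] [DecidableEq K]
variable {ι : Type} [Fintype ι] [DecidableEq ι]

theorem chi_zero : chi K (0 : K) = 0 := MulChar.map_zero _

theorem S_nonsing (hK : ringChar K ≠ 2) {ψ : AddChar K ℂ} (hψ : ψ.IsPrimitive) {m : ℕ}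
    (hι : Fintype.card ι = 2 * m) {M : Matrix ι ι K} (hM : M.IsSymm) (hdet : M.det ≠ 0) :
    S ψ M = chi K ((-1) ^ m * M.det) * (Fintype.card K : ℂ) ^ m := by
  obtain ⟨P, w, hP, hw⟩ := exists_diag hK M hM
  have hd : ∏ i, w i = P.det ^ 2 * M.det := by
    rw [← det_diagonal, ← hw, det_mul, det_mul, det_transpose]
    ring
  have hPd : P.det ≠ 0 := hP.ne_zero
  have hwi : ∀ i, w i ≠ 0 := by
    intro i hi
    have : ∏ i, w i = 0 := prod_eq_zero (mem_univ i) hi
    rw [hd] at this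
    exact mul_ne_zero (pow_ne_zero 2 hPd) hdet this
  rw [← S_conj ψ M P hP, hw, S_diag]
  have h1 : ∀ i, s1 K ψ (w i) = chi K (w i) * gaussSum (chi K) ψ := fun i => sum_psi hK hψ (hwi i)
  rw [prod_congr rfl fun i _ => h1 i, prod_mul_distrib, prod_const, card_univ, hι, pow_mul,
    gaussSum_sq (chi_ne_one hK) chi_quad hψ, ← map_prod, hd, map_mul, map_pow, pow_two,
    chi_sq hPd, one_mul, mul_pow, map_mul, map_pow]
  ring

theorem s1_mul (hK : ringChar K ≠ 2) {ψ : AddChar K ℂ} (hψ : ψ.IsPrimitive) {t : K} (ht : t ≠ 0)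
    (a : K) : s1 K ψ (t * a) = (if a = 0 then 1 else chi K t) * s1 K ψ a := by
  by_cases ha : a = 0
  · subst ha
    rw [mul_zero, if_pos rfl, one_mul]
  · rw [if_neg ha]
    unfold s1
    rw [sum_psi hK hψ (mul_ne_zero ht ha), sum_psi hK hψ ha, map_mul, mul_assoc]

theorem S_sing (hK : ringChar K ≠ 2) {ψ : AddChar K ℂ} (hψ : ψ.IsPrimitive) {m : ℕ}
    (hι : Fintype.card ι = 2 * m) {M : Matrix ι ι K} (hM : M.IsSymm) (hdet : M.det = 0)
    (hr : 2 * m - 1 ≤ M.rank) : ∑ t : Kˣ, S ψ ((t : K) • M) = 0 := by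
  obtain ⟨P, w, hP, hw⟩ := exists_diag hK M hM
  have hS : ∀ t : Kˣ, S ψ ((t : K) • M) =
      chi K t ^ (univ.filter fun i => ¬ w i = 0).card * ∏ i, s1 K ψ (w i) := by
    intro t
    have h1 : Pᵀ * ((t : K) • M) * P = diagonal fun i => (t : K) * w i := by
      rw [Matrix.mul_smul, Matrix.smul_mul, hw]
      ext i j
      by_cases hij : i = j
      · subst hij; simp
      · simp [hij]
    rw [← S_conj ψ ((t : K) • M) P hP, h1, S_diag, prod_congr rfl fun i _ =>
      s1_mul hK hψ t.ne_zero (w i), prod_mul_distrib]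
    congr 1
    rw [prod_ite, prod_const_one, one_mul, prod_const]
  have hrank : M.rank = (univ.filter fun i => ¬ w i = 0).card := by
    have hPt : IsUnit Pᵀ.det := by rwa [det_transpose]
    have h1 : (Pᵀ * M * P).rank = M.rank := by
      rw [rank_mul_eq_left_of_isUnit_det _ _ hP, rank_mul_eq_right_of_isUnit_det _ _ hPt]
    rw [← h1, hw, rank_diagonal, Fintype.card_subtype]
  have hlt : (univ.filter fun i => ¬ w i = 0).card < 2 * m := by
    rw [← hι, ← card_univ]
    refine card_lt_card ⟨filter_subset _ _, fun h => ?_⟩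
    have h2 : ∏ i, w i ≠ 0 := prod_ne_zero_iff.2 fun i _ => (mem_filter.1 (h (mem_univ i))).2
    have hd : ∏ i, w i = P.det ^ 2 * M.det := by
      rw [← det_diagonal, ← hw, det_mul, det_mul, det_transpose]
      ring
    rw [hdet, mul_zero] at hd
    exact h2 hd
  have hc : (univ.filter fun i => ¬ w i = 0).card = 2 * m - 1 := by omega
  rw [sum_congr rfl fun t _ => hS t, ← sum_mul, hc]
  obtain ⟨n, rfl⟩ : ∃ n, m = n + 1 := ⟨m - 1, by omega⟩
  have h3 : ∀ t : Kˣ, chi K t ^ (2 * (n + 1) - 1) = chi K t := by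
    intro t
    have : 2 * (n + 1) - 1 = 2 * n + 1 := by omega
    rw [this, pow_succ, pow_mul, pow_two, chi_sq t.ne_zero, one_pow, one_mul]
  have h4 : ∑ t : Kˣ, chi K t = 0 := by
    have h5 := MulChar.sum_eq_zero_of_ne_one (chi_ne_one (K := K) hK)
    rw [← h5]
    have h6 : ∑ t : Kˣ, chi K (t : K) = ∑ a ∈ univ.filter (fun a : K => a ≠ 0), chi K a := by
      refine sum_bij (fun t _ => (t : K)) (fun t _ => by simp) (fun a _ b _ h => Units.ext h)
        (fun b hb => ⟨Units.mk0 b (mem_filter.1 hb).2, mem_univ _, rfl⟩) (fun _ _ => rfl)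
    rw [h6, sum_filter]
    refine sum_congr rfl fun a _ => ?_
    by_cases ha : a = 0
    · subst ha; simp [chi_zero]
    · rw [if_pos ha]
  rw [sum_congr rfl fun t _ => h3 t, h4, zero_mul]

/-- the value at `(a, b)` -/
noncomputable def G (m : ℕ) (A B : Matrix ι ι K) (v : K × K) : ℂ :=
  chi K ((-1) ^ m * (v.1 • A + v.2 • B).det) * (Fintype.card K : ℂ) ^ m

/-- the number of affine solutions -/
noncomputable def aff (A B : Matrix ι ι K) : ℕ :=
  Nat.card {x : ι → K // x ⬝ᵥ A *ᵥ x = 0 ∧ x ⬝ᵥ B *ᵥ x = 0}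

theorem aff_eq {ψ : AddChar K ℂ} (hψ : ψ.IsPrimitive) (A B : Matrix ι ι K) :
    (Fintype.card K : ℂ) ^ 2 * aff A B = ∑ v : K × K, S ψ (v.1 • A + v.2 • B) := by
  classical
  unfold S
  rw [sum_comm]
  have h1 : ∀ x : ι → K, ∑ v : K × K, ψ (x ⬝ᵥ (v.1 • A + v.2 • B) *ᵥ x) =
      if x ⬝ᵥ A *ᵥ x = 0 ∧ x ⬝ᵥ B *ᵥ x = 0 then (Fintype.card K : ℂ) ^ 2 else 0 := by
    intro x
    have h2 : ∀ v : K × K, ψ (x ⬝ᵥ (v.1 • A + v.2 • B) *ᵥ x) =
        ψ (v.1 * (x ⬝ᵥ A *ᵥ x)) * ψ (v.2 * (x ⬝ᵥ B *ᵥ x)) := by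
      intro v
      rw [← AddChar.map_add_eq_mul]
      congr 1
      rw [add_mulVec, smul_mulVec, smul_mulVec, dotProduct_add, dotProduct_smul, dotProduct_smul,
        smul_eq_mul, smul_eq_mul]
    rw [sum_congr rfl fun v _ => h2 v, Fintype.sum_prod_type]
    simp only
    rw [← Finset.sum_mul_sum, AddChar.sum_mulShift _ hψ, AddChar.sum_mulShift _ hψ]
    by_cases ha : x ⬝ᵥ A *ᵥ x = 0 <;> by_cases hb : x ⬝ᵥ B *ᵥ x = 0 <;> simp [ha, hb, pow_two]
  rw [sum_congr rfl fun x _ => h1 x, ← sum_filter, sum_const, nsmul_eq_mul]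
  unfold aff
  rw [Nat.card_eq_fintype_card, Fintype.card_subtype]
  ring

theorem sum_units {R : Type} [CommRing R] (F : K × K → R) :
    ((Fintype.card K : R) - 1) * ∑ v ∈ univ.filter (fun v : K × K => v ≠ 0), F v =
      ∑ v ∈ univ.filter (fun v : K × K => v ≠ 0), ∑ t : Kˣ, F ((t : K) • v) := by
  rw [sum_comm]
  have h1 : ∀ t : Kˣ, ∑ v ∈ univ.filter (fun v : K × K => v ≠ 0), F ((t : K) • v) =
      ∑ v ∈ univ.filter (fun v : K × K => v ≠ 0), F v := by
    intro t
    refine sum_bij (fun v _ => (t : K) • v) ?_ ?_ ?_ ?_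
    · intro v hv
      rw [mem_filter] at hv ⊢
      exact ⟨mem_univ _, smul_ne_zero t.ne_zero hv.2⟩
    · intro a _ b _ h
      exact smul_right_injective _ t.ne_zero h
    · intro b hb
      refine ⟨((t⁻¹ : Kˣ) : K) • b, ?_, ?_⟩
      · rw [mem_filter] at hb ⊢
        exact ⟨mem_univ _, smul_ne_zero (t⁻¹).ne_zero hb.2⟩
      · rw [smul_smul, Units.mul_inv, one_smul]
    · intro v _
      rfl
  rw [sum_congr rfl fun t _ => h1 t, sum_const, card_univ, Fintype.card_units, nsmul_eq_mul,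
    Nat.cast_sub Fintype.card_pos, Nat.cast_one]

theorem G_smul {m : ℕ} (hι : Fintype.card ι = 2 * m) (A B : Matrix ι ι K) {t : K} (ht : t ≠ 0)
    (v : K × K) : G m A B (t • v) = G m A B v := by
  unfold G
  have h1 : (t • v).1 • A + (t • v).2 • B = t • (v.1 • A + v.2 • B) := by
    rw [smul_add, smul_smul, smul_smul]
    rfl
  rw [h1, det_smul, hι, pow_mul]
  have h2 : (-1) ^ m * ((t ^ 2) ^ m * (v.1 • A + v.2 • B).det) =
      (t ^ m * t ^ m) * ((-1) ^ m * (v.1 • A + v.2 • B).det) := by ring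
  rw [h2, map_mul, map_mul, chi_sq (pow_ne_zero m ht), one_mul]

theorem sum_S (hK : ringChar K ≠ 2) {ψ : AddChar K ℂ} (hψ : ψ.IsPrimitive) {m : ℕ}
    (hι : Fintype.card ι = 2 * m) {A B : Matrix ι ι K} (hA : A.IsSymm) (hB : B.IsSymm)
    (hr : ∀ v : K × K, v ≠ 0 → 2 * m - 1 ≤ (v.1 • A + v.2 • B).rank) :
    ∑ v ∈ univ.filter (fun v : K × K => v ≠ 0), S ψ (v.1 • A + v.2 • B) =
      ∑ v ∈ univ.filter (fun v : K × K => v ≠ 0), G m A B v := by
  have hq : ((Fintype.card K : ℂ) - 1) ≠ 0 := by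
    rw [sub_ne_zero]
    exact_mod_cast (Fintype.one_lt_card (α := K)).ne'
  apply mul_left_cancel₀ hq
  rw [sum_units (fun v => S ψ (v.1 • A + v.2 • B)), sum_units]
  refine sum_congr rfl fun v hv => ?_
  have hv0 : v ≠ 0 := (mem_filter.1 hv).2
  have hsym : (v.1 • A + v.2 • B).IsSymm := (hA.smul v.1).add (hB.smul v.2)
  have e : ∀ t : K, (t • v).1 • A + (t • v).2 • B = t • (v.1 • A + v.2 • B) := by
    intro t
    rw [smul_add, smul_smul, smul_smul]
    rfl
  by_cases hd : (v.1 • A + v.2 • B).det = 0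
  · simp only [e]
    rw [S_sing hK hψ hι hsym hd (hr v hv0)]
    symm
    refine sum_eq_zero fun t _ => ?_
    rw [G_smul hι A B t.ne_zero]
    unfold G
    rw [hd, mul_zero, MulChar.map_zero, zero_mul]
  · refine sum_congr rfl fun t _ => ?_
    have hd' : (((t : K) • v).1 • A + ((t : K) • v).2 • B).det ≠ 0 := by
      rw [e, det_smul]
      exact mul_ne_zero (pow_ne_zero _ t.ne_zero) hd
    have hs' : (((t : K) • v).1 • A + ((t : K) • v).2 • B).IsSymm := by
      rw [e]
      exact hsym.smul _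
    rw [S_nonsing hK hψ hι hs' hd']
    rfl

theorem sum_G {m : ℕ} (hm : m ≠ 0) (hι : Fintype.card ι = 2 * m) (A B : Matrix ι ι K) :
    ∑ v ∈ univ.filter (fun v : K × K => v ≠ 0), G m A B v =
      ((Fintype.card K : ℂ) - 1) * (G m A B (1, 0) + ∑ x : K, G m A B (x, 1)) := by
  haveI : Nonempty ι := by
    rw [← Fintype.card_pos_iff, hι]
    omega
  have h0 : G m A B 0 = 0 := by
    unfold G
    simp [chi_zero]
  have h1 : ∑ v ∈ univ.filter (fun v : K × K => v ≠ 0), G m A B v = ∑ v : K × K, G m A B v := by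
    rw [sum_filter]
    refine sum_congr rfl fun v _ => ?_
    by_cases hv : v = 0
    · rw [hv, h0, ite_self]
    · rw [if_pos hv]
  have h2 : ∀ b : K, b ≠ 0 → ∑ a : K, G m A B (a, b) = ∑ x : K, G m A B (x, 1) := by
    intro b hb
    have hbij : Function.Bijective (fun x : K => b * x) := mulLeft_bijective₀ b hb
    rw [← hbij.sum_comp (fun a : K => G m A B (a, b))]
    refine sum_congr rfl fun x _ => ?_
    have : ((b * x, b) : K × K) = b • (x, 1) := by
      rw [Prod.smul_mk, smul_eq_mul, smul_eq_mul, mul_one]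
    rw [this, G_smul hι A B hb]
  have h3 : ∑ a : K, G m A B (a, 0) = ((Fintype.card K : ℂ) - 1) * G m A B (1, 0) := by
    have h4 : ∀ a : K, G m A B (a, 0) = if a = 0 then 0 else G m A B (1, 0) := by
      intro a
      by_cases ha : a = 0
      · rw [ha, if_pos rfl]
        exact h0
      · have : ((a, 0) : K × K) = a • (1, 0) := by
          rw [Prod.smul_mk, smul_eq_mul, smul_eq_mul, mul_one, mul_zero]
        rw [if_neg ha, this, G_smul hι A B ha]
    rw [sum_congr rfl fun a _ => h4 a, sum_ite, sum_const_zero, zero_add, sum_const, nsmul_eq_mul]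
    congr 1
    have : (univ.filter fun x : K => ¬ x = 0).card = Fintype.card K - 1 := by
      rw [filter_ne' univ (0 : K), card_erase_of_mem (mem_univ _), card_univ]
    rw [this, Nat.cast_sub Fintype.card_pos, Nat.cast_one]
  have h5 : ∑ v : K × K, G m A B v = ∑ b : K, ∑ a : K, G m A B (a, b) := by
    rw [Fintype.sum_prod_type, sum_comm]
  have h6 : ∑ b : K, ∑ a : K, G m A B (a, b) =
      ∑ b : K, ((if b = 0 then ((Fintype.card K : ℂ) - 1) * G m A B (1, 0) -
        ∑ x : K, G m A B (x, 1) else 0) + ∑ x : K, G m A B (x, 1)) := by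
    refine sum_congr rfl fun b _ => ?_
    by_cases hb : b = 0
    · rw [hb, if_pos rfl, h3]
      ring
    · rw [if_neg hb, zero_add, h2 b hb]
  rw [h1, h5, h6, sum_add_distrib, sum_ite_eq' univ (0 : K), if_pos (mem_univ _), sum_const,
    card_univ, nsmul_eq_mul]
  ring

/-- the sum of the quadratic character over the projective line -/
def lineSum (m : ℕ) (A B : Matrix ι ι K) : ℤ :=
  quadraticChar K ((-1) ^ m * A.det) + ∑ x : K, quadraticChar K ((-1) ^ m * (x • A + B).det)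

/-- the number of affine solutions -/
theorem aff_count (hK : ringChar K ≠ 2) {m : ℕ} (hm : m ≠ 0)
    (hι : Fintype.card ι = 2 * m) {A B : Matrix ι ι K} (hA : A.IsSymm) (hB : B.IsSymm)
    (hr : ∀ v : K × K, v ≠ 0 → 2 * m - 1 ≤ (v.1 • A + v.2 • B).rank) :
    (Fintype.card K : ℤ) ^ 2 * aff A B = (Fintype.card K : ℤ) ^ (2 * m) +
      ((Fintype.card K : ℤ) - 1) * (Fintype.card K : ℤ) ^ m * lineSum m A B := by
  haveI : NeZero (ringChar ℂ) ∨ True := Or.inr trivial
  obtain ⟨ψ, hψ⟩ : ∃ ψ : AddChar K ℂ, ψ.IsPrimitive := by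
    have := AddChar.FiniteField.primitiveChar_to_Complex K
    exact ⟨AddChar.FiniteField.primitiveChar_to_Complex K,
      AddChar.FiniteField.primitiveChar_to_Complex_isPrimitive K⟩
  have h1 := aff_eq hψ A B
  have h2 : ∑ v : K × K, S ψ (v.1 • A + v.2 • B) =
      S ψ (0 : Matrix ι ι K) + ∑ v ∈ univ.filter (fun v : K × K => v ≠ 0),
        S ψ (v.1 • A + v.2 • B) := by
    rw [filter_ne' univ (0 : K × K), ← add_sum_erase univ _ (mem_univ (0 : K × K))]
    simp
  have h3 : S ψ (0 : Matrix ι ι K) = (Fintype.card K : ℂ) ^ (2 * m) := by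
    unfold S
    simp only [zero_mulVec, dotProduct_zero, AddChar.map_zero_eq_one, sum_const, card_univ,
      nsmul_eq_mul, mul_one]
    rw [Fintype.card_fun, hι]
    push_cast
    rfl
  rw [h2, h3, sum_S hK hψ hι hA hB hr, sum_G hm hι] at h1
  have h4 : G m A B (1, 0) + ∑ x : K, G m A B (x, 1) =
      (lineSum m A B : ℂ) * (Fintype.card K : ℂ) ^ m := by
    unfold G lineSum
    push_cast
    rw [add_mul, sum_mul]
    simp only [one_smul, zero_smul, add_zero, chi_apply]
  rw [h4] at h1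
  have h5 : ((((Fintype.card K : ℤ) ^ 2 * aff A B : ℤ)) : ℂ) = (((Fintype.card K : ℤ) ^ (2 * m) +
      ((Fintype.card K : ℤ) - 1) * (Fintype.card K : ℤ) ^ m * lineSum m A B : ℤ) : ℂ) := by
    push_cast
    rw [h1]
    ring
  exact_mod_cast h5

end

end Pool.Agent.W5h36.TQ
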