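import Pool.Agent.W5h36.TQ.Corank

/-!
# The bielliptic curves
-/

set_option autoImplicit false

namespace Pool.Agent.W5h36.TQ

open Finset Matrix Polynomial

section

variable {K : Type} [Field K] [Fintype K] [DecidableEq K]

theorem card_pts (hK : ringChar K ≠ 2) (f : K → K) :
    (Nat.card {q : K × K // q.2 ^ 2 = f q.1} : ℤ) =
      Fintype.card K + ∑ x : K, quadraticChar K (f x) := by
  classical
  have h1 : Nat.card {q : K × K // q.2 ^ 2 = f q.1} =
      ∑ x : K, (univ.filter fun y : K => y ^ 2 = f x).card := by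
    rw [Nat.card_eq_fintype_card, Fintype.card_subtype, ← card_sigma]
    refine card_bij (fun q _ => ⟨q.1, q.2⟩) ?_ ?_ ?_
    · intro q hq
      simpa using hq
    · rintro ⟨a, b⟩ _ ⟨c, d⟩ _ h
      simp only [Sigma.mk.injEq, heq_eq_eq] at h
      rw [h.1, h.2]
    · rintro ⟨a, b⟩ h
      refine ⟨(a, b), ?_, rfl⟩
      simpa using h
  have h2 : ∀ x : K, ((univ.filter fun y : K => y ^ 2 = f x).card : ℤ) =
      quadraticChar K (f x) + 1 := by
    intro x
    have h3 := quadraticChar_card_sqrts hK (f x)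
    have h4 : {y : K | y ^ 2 = f x}.toFinset = univ.filter (fun y : K => y ^ 2 = f x) := by
      ext y; simp
    rw [h4] at h3
    exact h3
  rw [h1]
  push_cast
  rw [sum_congr rfl fun x _ => h2 x, sum_add_distrib, sum_const, card_univ]
  simp only [nsmul_eq_mul, mul_one]
  ring

/-- the trace of `y² = x³ + a x² + b x + c` over `K` -/
noncomputable def trE (a b c : K) : ℤ :=
  (Fintype.card K : ℤ) - Nat.card {q : K × K // q.2 ^ 2 = q.1 ^ 3 + a * q.1 ^ 2 + b * q.1 + c}

theorem trE_eq (hK : ringChar K ≠ 2) (a b c : K) :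
    trE a b c = -∑ x : K, quadraticChar K (x ^ 3 + a * x ^ 2 + b * x + c) := by
  unfold trE
  rw [card_pts hK (fun x => x ^ 3 + a * x ^ 2 + b * x + c)]
  ring

theorem qc_sq {a : K} (ha : a ≠ 0) (b : K) : quadraticChar K (a ^ 2 * b) = quadraticChar K b := by
  rw [map_mul, map_pow, quadraticChar_sq_one ha, one_mul]

theorem sum_cubic (hK : ringChar K ≠ 2) {α : K} (hα : α ≠ 0) (β γ δ : K) :
    ∑ t : K, quadraticChar K (α * t ^ 3 + β * t ^ 2 + γ * t + δ) =
      -trE β (α * γ) (α ^ 2 * δ) := by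
  rw [trE_eq hK, neg_neg]
  have hbij : Function.Bijective (fun x : K => α * x) := mulLeft_bijective₀ α hα
  rw [← hbij.sum_comp (fun x : K => quadraticChar K (x ^ 3 + β * x ^ 2 + α * γ * x + α ^ 2 * δ))]
  refine sum_congr rfl fun t _ => ?_
  rw [← qc_sq hα]
  congr 1
  ring

/-- the sum over the projective line -/
theorem line_sum (hK : ringChar K ≠ 2) {α δ : K} (hα : α ≠ 0) (hδ : δ ≠ 0) (β γ : K) :
    quadraticChar K α + ∑ x : K, quadraticChar K (α * x ^ 6 + β * x ^ 4 + γ * x ^ 2 + δ) =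
      -trE β (α * γ) (α ^ 2 * δ) - trE γ (δ * β) (δ ^ 2 * α) := by
  have h1 := sum_sq_fn (R := ℤ) hK (fun y : K =>
    quadraticChar K (α * y ^ 3 + β * y ^ 2 + γ * y + δ))
  have h2 : ∑ x : K, quadraticChar K (α * (x ^ 2) ^ 3 + β * (x ^ 2) ^ 2 + γ * x ^ 2 + δ) =
      ∑ x : K, quadraticChar K (α * x ^ 6 + β * x ^ 4 + γ * x ^ 2 + δ) := by
    refine sum_congr rfl fun x _ => ?_
    congr 1
    ring
  simp only [Int.cast_id] at h1
  rw [h2] at h1
  rw [h1]
  have h3 : ∑ y : K, (quadraticChar K y + 1) *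
      quadraticChar K (α * y ^ 3 + β * y ^ 2 + γ * y + δ) =
      ∑ y : K, quadraticChar K (y * (α * y ^ 3 + β * y ^ 2 + γ * y + δ)) +
      ∑ y : K, quadraticChar K (α * y ^ 3 + β * y ^ 2 + γ * y + δ) := by
    rw [← sum_add_distrib]
    refine sum_congr rfl fun y _ => ?_
    rw [map_mul]
    ring
  rw [h3, sum_cubic hK hα]
  have hinv : Function.Bijective (fun x : K => x⁻¹) := inv_involutive.bijective
  have h4 : ∑ y : K, quadraticChar K (y * (α * y ^ 3 + β * y ^ 2 + γ * y + δ)) =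
      ∑ u : K, quadraticChar K (δ * u ^ 3 + γ * u ^ 2 + β * u + α) - quadraticChar K α := by
    rw [← hinv.sum_comp (fun y : K => quadraticChar K (y * (α * y ^ 3 + β * y ^ 2 + γ * y + δ)))]
    have h5 : ∀ u : K, quadraticChar K (u⁻¹ * (α * u⁻¹ ^ 3 + β * u⁻¹ ^ 2 + γ * u⁻¹ + δ)) =
        quadraticChar K (δ * u ^ 3 + γ * u ^ 2 + β * u + α) -
          if u = 0 then quadraticChar K α else 0 := by
      intro u
      by_cases hu : u = 0
      · subst hu
        simp
      · rw [if_neg hu, sub_zero, ← qc_sq (pow_ne_zero 2 hu)]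
        congr 1
        field_simp
        ring
    rw [sum_congr rfl fun u _ => h5 u, sum_sub_distrib, sum_ite_eq' univ (0 : K),
      if_pos (mem_univ _)]
  rw [h4, sum_cubic hK hδ]
  ring

end

section

variable {K : Type} [Field K] [Fintype K] [DecidableEq K]
variable {ι : Type} [Fintype ι] [DecidableEq ι]

/-- the number of points of the intersection of the two quadrics -/
theorem pts_bi (hK : ringChar K ≠ 2) (hι : Fintype.card ι = 6) {A B : Matrix ι ι ℤ}
    (hA : A.IsSymm) (hB : B.IsSymm) {α β γ δ : ℤ}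
    (h : ∀ x z : ℤ, -(x • A + z • B).det =
      α * x ^ 6 + β * x ^ 4 * z ^ 2 + γ * x ^ 2 * z ^ 4 + δ * z ^ 6)
    (h1 : (α : K) ≠ 0) (h2 : (δ : K) ≠ 0)
    (h3 : ((β ^ 2 * γ ^ 2 - 4 * α * γ ^ 3 - 4 * β ^ 3 * δ - 27 * α ^ 2 * δ ^ 2 +
      18 * α * β * γ * δ : ℤ) : K) ≠ 0) :
    ∑ j ∈ range 4, (Fintype.card K : ℤ) ^ j -
      (ptsF (A.map (Int.castRingHom K)) (B.map (Int.castRingHom K)) : ℤ) =
      (Fintype.card K : ℤ) * (trE (β : K) (α * γ) (α ^ 2 * δ) + trE (γ : K) (δ * β) (δ ^ 2 * α)) := by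
  have hAs : (A.map (Int.castRingHom K)).IsSymm := hA.map _
  have hBs : (B.map (Int.castRingHom K)).IsSymm := hB.map _
  have hr := rank_ge (A := A.map (Int.castRingHom K)) (B := B.map (Int.castRingHom K)) hK hι hAs hBs
    (α := (α : K)) (β := β) (γ := γ) (δ := δ) (fun x z => by
      have h4 := det_univ A B α β γ δ h x z
      have e : ∀ M : Matrix ι ι ℤ, (M.map (Int.castRingHom K)).map C =
          M.map (Int.castRingHom K[X]) := by
        intro M
        ext1 i j
        simp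
      rw [e, e, h4]
      simp) h1 h2 (by push_cast at h3; exact h3)
  have h5 := pts_count hK (m := 3) (by norm_num) hι hAs hBs hr
  have h6 : lineSum 3 (A.map (Int.castRingHom K)) (B.map (Int.castRingHom K)) =
      quadraticChar K (α : K) +
        ∑ x : K, quadraticChar K ((α : K) * x ^ 6 + β * x ^ 4 + γ * x ^ 2 + δ) := by
    unfold lineSum
    congr 1
    · congr 1
      have h7 := det_univ A B α β γ δ h (1 : K) 0
      rw [one_smul, zero_smul, add_zero] at h7
      have : ((-1 : K)) ^ 3 = -1 := by norm_num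
      rw [this, neg_one_mul, h7]
      ring
    · refine sum_congr rfl fun x _ => ?_
      congr 1
      have h7 := det_univ A B α β γ δ h x (1 : K)
      rw [one_smul] at h7
      have : ((-1 : K)) ^ 3 = -1 := by norm_num
      rw [this, neg_one_mul, h7]
      ring
  rw [h5, h6, line_sum hK h1 h2]
  norm_num
  ring

end

end Pool.Agent.W5h36.TQ
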