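import Mathlib

/-!
# Exponential sums of quadratic forms over finite fields
-/

set_option autoImplicit false

namespace Pool.Agent.W5h36.TQ

open Finset Matrix

section

variable {K : Type} [Field K] [Fintype K] [DecidableEq K]

/-- the quadratic character with complex values -/
noncomputable def chi (K : Type) [Field K] [Fintype K] [DecidableEq K] : MulChar K ℂ :=
  (quadraticChar K).ringHomComp (Int.castRingHom ℂ)

theorem chi_apply (a : K) : chi K a = ((quadraticChar K a : ℤ) : ℂ) := rfl

theorem chi_sq {a : K} (ha : a ≠ 0) : chi K a * chi K a = 1 := by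
  rw [chi_apply, ← Int.cast_mul, ← pow_two, quadraticChar_sq_one ha, Int.cast_one]

theorem chi_ne_one (hK : ringChar K ≠ 2) : chi K ≠ 1 := by
  intro h
  obtain ⟨a, ha⟩ := quadraticChar_exists_neg_one' hK
  have h1 : chi K (a : K) = 1 := by
    rw [h]
    exact MulChar.one_apply_coe a
  rw [chi_apply, ha] at h1
  norm_num at h1

theorem chi_quad : (chi K).IsQuadratic := by
  intro a
  rcases quadraticChar_isQuadratic K a with h | h | h
  · left; rw [chi_apply, h]; simp
  · right; left; rw [chi_apply, h]; simp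
  · right; right; rw [chi_apply, h]; simp

/-- sums over squares -/
theorem sum_sq_fn {R : Type} [CommRing R] (hK : ringChar K ≠ 2) (g : K → R) :
    ∑ x : K, g (x ^ 2) = ∑ y : K, (((quadraticChar K y : ℤ) : R) + 1) * g y := by
  classical
  rw [← Finset.sum_fiberwise (s := (univ : Finset K)) (g := fun x : K => x ^ 2)]
  refine Finset.sum_congr rfl fun y _ => ?_
  have h1 : ∑ i ∈ univ.filter (fun x : K => x ^ 2 = y), g (i ^ 2) =
      ∑ i ∈ univ.filter (fun x : K => x ^ 2 = y), g y := by
    refine Finset.sum_congr rfl fun i hi => ?_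
    rw [(mem_filter.1 hi).2]
  rw [h1, sum_const, nsmul_eq_mul]
  congr 1
  have h2 := quadraticChar_card_sqrts hK y
  have h3 : {x : K | x ^ 2 = y}.toFinset = univ.filter (fun x : K => x ^ 2 = y) := by
    ext x; simp
  rw [h3] at h2
  have h4 : (((univ.filter (fun x : K => x ^ 2 = y)).card : ℤ) : R) =
      ((quadraticChar K y + 1 : ℤ) : R) := by rw [h2]
  push_cast at h4
  exact h4

/-- the one-dimensional sum -/
theorem sum_psi (hK : ringChar K ≠ 2) {ψ : AddChar K ℂ} (hψ : ψ.IsPrimitive) {a : K}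
    (ha : a ≠ 0) : ∑ x : K, ψ (a * x ^ 2) = chi K a * gaussSum (chi K) ψ := by
  have h1 := sum_sq_fn (R := ℂ) hK (fun y => ψ (a * y))
  rw [h1]
  have h2 : ∑ y : K, (((quadraticChar K y : ℤ) : ℂ) + 1) * ψ (a * y) =
      gaussSum (chi K) (AddChar.mulShift ψ a) + ∑ y : K, ψ (y * a) := by
    unfold gaussSum
    rw [← sum_add_distrib]
    refine sum_congr rfl fun y _ => ?_
    rw [AddChar.mulShift_apply, chi_apply, mul_comm y a]
    ring
  rw [h2, AddChar.sum_mulShift a hψ, if_neg ha, Nat.cast_zero, add_zero]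
  have h3 := gaussSum_mulShift (chi K) ψ (Units.mk0 a ha)
  rw [Units.val_mk0] at h3
  rw [← h3, ← mul_assoc, chi_sq ha, one_mul]

/-- the one-dimensional sum, with the case `a = 0` -/
noncomputable def s1 (K : Type) [Field K] [Fintype K] [DecidableEq K] (ψ : AddChar K ℂ) (a : K) :
    ℂ := ∑ x : K, ψ (a * x ^ 2)

theorem s1_zero (ψ : AddChar K ℂ) : s1 K ψ 0 = Fintype.card K := by
  unfold s1
  simp

/-- the sum of a quadratic form -/
noncomputable def S {ι : Type} [Fintype ι] [DecidableEq ι] (ψ : AddChar K ℂ)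
    (M : Matrix ι ι K) : ℂ := ∑ x : ι → K, ψ (x ⬝ᵥ M *ᵥ x)

theorem S_diag {ι : Type} [Fintype ι] [DecidableEq ι] (ψ : AddChar K ℂ) (w : ι → K) :
    S ψ (diagonal w) = ∏ i, s1 K ψ (w i) := by
  unfold S s1
  rw [Finset.prod_univ_sum, Fintype.piFinset_univ]
  refine sum_congr rfl fun x _ => ?_
  have h : x ⬝ᵥ diagonal w *ᵥ x = ∑ i, w i * x i ^ 2 := by
    unfold dotProduct
    refine sum_congr rfl fun i _ => ?_
    rw [mulVec_diagonal]
    ring
  rw [h]
  exact map_sum_eq_prod ψ (fun i => w i * x i ^ 2)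
where
  map_sum_eq_prod {ι : Type} [Fintype ι] (ψ : AddChar K ℂ) (f : ι → K) :
      ψ (∑ i, f i) = ∏ i, ψ (f i) := by
    classical
    induction (univ : Finset ι) using Finset.induction_on with
    | empty => simp
    | insert a s ha ih => rw [sum_insert ha, prod_insert ha, AddChar.map_add_eq_mul, ih]

theorem S_conj {ι : Type} [Fintype ι] [DecidableEq ι] (ψ : AddChar K ℂ)
    (M P : Matrix ι ι K) (hP : IsUnit P.det) : S ψ (Pᵀ * M * P) = S ψ M := by
  unfold S
  have hbij : Function.Bijective (fun x : ι → K => P *ᵥ x) := by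
    have h1 : Function.Injective (fun x : ι → K => P *ᵥ x) :=
      mulVec_injective_iff_isUnit.2 ((isUnit_iff_isUnit_det P).2 hP)
    exact Finite.injective_iff_bijective.1 h1
  rw [← hbij.sum_comp (fun y : ι → K => ψ (y ⬝ᵥ M *ᵥ y))]
  refine sum_congr rfl fun x _ => ?_
  congr 1
  rw [← mulVec_mulVec, ← mulVec_mulVec, dotProduct_mulVec, vecMul_transpose]

theorem exists_diag {ι : Type} [Fintype ι] [DecidableEq ι] (hK : ringChar K ≠ 2)
    (M : Matrix ι ι K) (hM : M.IsSymm) :
    ∃ (P : Matrix ι ι K) (w : ι → K), IsUnit P.det ∧ Pᵀ * M * P = diagonal w := by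
  have h2 : (2 : K) ≠ 0 := Ring.two_ne_zero hK
  haveI : Invertible (2 : K) := invertibleOfNonzero h2
  set B : LinearMap.BilinForm K (ι → K) := Matrix.toBilin' M with hB
  have hsymm : LinearMap.IsSymm B := by
    refine ⟨fun x y => ?_⟩
    rw [hB, Matrix.toBilin'_apply', Matrix.toBilin'_apply', dotProduct_mulVec, ← mulVec_transpose,
      hM.eq, dotProduct_comm]
    simp only [RingHom.id_apply]
  obtain ⟨v, hv⟩ := LinearMap.BilinForm.exists_orthogonal_basis hsymm
  have hcard : Module.finrank K (ι → K) = Fintype.card ι := Module.finrank_fintype_fun_eq_card K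
  let e : Fin (Module.finrank K (ι → K)) ≃ ι := (finCongr hcard).trans (Fintype.equivFin ι).symm
  let b : Module.Basis ι K (ι → K) := v.reindex e
  let P : Matrix ι ι K := (Pi.basisFun K ι).toMatrix b
  refine ⟨P, fun i => B (b i) (b i), ?_, ?_⟩
  · exact (Matrix.isUnit_iff_isUnit_det P).1 ⟨⟨P, b.toMatrix (Pi.basisFun K ι),
      Module.Basis.toMatrix_mul_toMatrix_flip _ _, Module.Basis.toMatrix_mul_toMatrix_flip _ _⟩, rfl⟩
  · ext i j
    have h1 : (Pᵀ * M * P) i j = B (b i) (b j) := by
      rw [hB, Matrix.toBilin'_apply', Matrix.mul_assoc, Matrix.mul_apply']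
      rfl
    rw [h1]
    by_cases hij : i = j
    · subst hij
      rw [diagonal_apply_eq]
    · rw [diagonal_apply_ne _ hij]
      have := hv (i := e.symm i) (j := e.symm j) (fun h => hij (e.symm.injective h))
      simpa [b, Module.Basis.reindex_apply] using this

end

end Pool.Agent.W5h36.TQ
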