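import Pool.Agent.W5h36.TQ.Curve
import Pool.Agent.W5h35.CU.Local
import Pool.Agent.Y18.JT.Cub

/-!
# The Euler factors of `H³` of the intersection of two quadrics
-/

set_option autoImplicit false

namespace Pool.Agent.W5h36.TQ

open Finset Matrix Polynomial
open Pool.Agent.H82R3.EK (luc luc_eq)
open scoped LinearAlgebra.Projectivization

/-- the trace of `y² = x³ + a x² + b x + c` modulo `p` -/
noncomputable def ap (a b c : ℤ) (p : ℕ) : ℤ :=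
  (p : ℤ) - Nat.card {q : ZMod p × ZMod p //
    q.2 ^ 2 = q.1 ^ 3 + (a : ZMod p) * q.1 ^ 2 + (b : ZMod p) * q.1 + (c : ZMod p)}

theorem ap_eq {p : ℕ} [Fact p.Prime] (hp2 : p ≠ 2) (a b c : ℤ) : ap a b c p =
    -∑ x : ZMod p, quadraticChar (ZMod p) (x ^ 3 + (a : ZMod p) * x ^ 2 + b * x + c) := by
  have hF : ringChar (ZMod p) ≠ 2 := by rwa [ZMod.ringChar_zmod_n]
  rw [← trE_eq hF]
  unfold ap trE
  rw [ZMod.card]

theorem hasse {p : ℕ} [Fact p.Prime] (hp2 : p ≠ 2) (a b c : ℤ) :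
    |(ap a b c p : ℝ)| ≤ 2 * Real.sqrt p := by
  have hF : ringChar (ZMod p) ≠ 2 := by rwa [ZMod.ringChar_zmod_n]
  have h4 := Pool.Agent.H341R2.Sharp.weil_sharp_monic hF
    (Pool.Agent.Y18.JT.cubp_monic (a : ZMod p) b c)
    (by rw [Pool.Agent.Y18.JT.cubp_natDegree]; norm_num)
    (W165.CE.cubic_nsq (Pool.Agent.Y18.JT.cubp_natDegree (a : ZMod p) b c))
  rw [Pool.Agent.Y18.JT.cubp_natDegree] at h4
  have h5 : ∀ x : ZMod p, (Pool.Agent.Y18.JT.cubp (a : ZMod p) b c).eval x =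
      x ^ 3 + (a : ZMod p) * x ^ 2 + b * x + c := by
    intro x
    unfold Pool.Agent.Y18.JT.cubp
    simp only [eval_add, eval_mul, eval_pow, eval_X, eval_C]
  simp_rw [h5] at h4
  rw [ZMod.card] at h4
  rw [ap_eq hp2]
  push_cast
  rw [abs_neg]
  refine h4.trans (le_of_eq ?_)
  norm_num

/-- the roots of the polynomial of the Frobenius -/
theorem exists_ab {t : ℝ} {p : ℕ} (h : |t| ≤ 2 * Real.sqrt p) : ∃ α β : ℂ, α + β = t ∧
    α * β = p ∧ ‖α‖ = Real.sqrt p ∧ ‖β‖ = Real.sqrt p := by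
  have hp : (0 : ℝ) ≤ p := Nat.cast_nonneg p
  have h1 : t ^ 2 ≤ 4 * p := by
    have h2 := pow_le_pow_left₀ (abs_nonneg t) h 2
    rw [sq_abs, mul_pow, Real.sq_sqrt hp] at h2
    linarith
  have h3 : Real.sqrt (4 * p - t ^ 2) ^ 2 = 4 * p - t ^ 2 := Real.sq_sqrt (by linarith)
  set r := Real.sqrt (4 * p - t ^ 2) with hr
  refine ⟨⟨t / 2, r / 2⟩, ⟨t / 2, -(r / 2)⟩, ?_, ?_, ?_, ?_⟩
  · apply Complex.ext
    · simp
    · simp
  · apply Complex.ext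
    · simp
      nlinarith
    · simp
      ring
  · rw [Complex.norm_def]
    congr 1
    rw [Complex.normSq_mk]
    nlinarith
  · rw [Complex.norm_def]
    congr 1
    rw [Complex.normSq_mk]
    nlinarith

/-- the number of points over the field with `p ^ k` elements of the intersection `X` of the two
quadrics `xᵀ A x = 0` and `xᵀ B x = 0` -/
noncomputable def pts {n : ℕ} (A B : Matrix (Fin n) (Fin n) ℤ) (p : ℕ) [Fact p.Prime] (k : ℕ) : ℕ :=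
  Nat.card {P : ℙ (GaloisField p k) (Fin n → GaloisField p k) //
    P.rep ⬝ᵥ A.map (Int.castRingHom (GaloisField p k)) *ᵥ P.rep = 0 ∧
    P.rep ⬝ᵥ B.map (Int.castRingHom (GaloisField p k)) *ᵥ P.rep = 0}

/-- the trace of the `k`-th power of the Frobenius on `H³` -/
noncomputable def tr (A B : Matrix (Fin 6) (Fin 6) ℤ) (p : ℕ) [Fact p.Prime] (k : ℕ) : ℤ :=
  ∑ j ∈ range 4, ((p : ℤ) ^ k) ^ j - pts A B p k

/-- the terms of the logarithm of the Euler factor of `H³` at `p` -/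
noncomputable def term (A B : Matrix (Fin 6) (Fin 6) ℤ) (p : ℕ) [Fact p.Prime] (s : ℂ) (k : ℕ) :
    ℂ := (tr A B p (k + 1) : ℂ) * ((p : ℂ) ^ (-s)) ^ (k + 1) / ((k + 1 : ℕ) : ℂ)

/-- the discriminant of the binary cubic form -/
def dsc (α β γ δ : ℤ) : ℤ := β ^ 2 * γ ^ 2 - 4 * α * γ ^ 3 - 4 * β ^ 3 * δ - 27 * α ^ 2 * δ ^ 2 +
  18 * α * β * γ * δ

/-- the discriminant of the pencil -/
def Disc (A B : Matrix (Fin 6) (Fin 6) ℤ) (α β γ δ : ℤ) : Prop := ∀ x z : ℤ,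
  -(x • A + z • B).det = α * x ^ 6 + β * x ^ 4 * z ^ 2 + γ * x ^ 2 * z ^ 4 + δ * z ^ 6

theorem tr_eq {A B : Matrix (Fin 6) (Fin 6) ℤ} (hA : A.IsSymm) (hB : B.IsSymm) {α β γ δ : ℤ}
    (h : Disc A B α β γ δ) {p : ℕ} [Fact p.Prime] (hp : ¬ (p : ℤ) ∣ 2 * α * δ * dsc α β γ δ)
    {k : ℕ} (hk : k ≠ 0) : tr A B p k = (p : ℤ) ^ k * (luc (ap β (α * γ) (α ^ 2 * δ) p) p k +
      luc (ap γ (δ * β) (δ ^ 2 * α) p) p k) := by
  classical
  have hpp : p.Prime := Fact.out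
  have hpi := Nat.prime_iff_prime_int.1 hpp
  have e0 : ¬ (p : ℤ) ∣ 2 := fun h' => hp (((h'.mul_right _).mul_right _).mul_right _)
  have e1 : ¬ (p : ℤ) ∣ α := fun h' => hp (((h'.mul_left _).mul_right _).mul_right _)
  have e2 : ¬ (p : ℤ) ∣ δ := fun h' => hp ((h'.mul_left _).mul_right _)
  have e3 : ¬ (p : ℤ) ∣ dsc α β γ δ := fun h' => hp (h'.mul_left _)
  have hp2 : p ≠ 2 := by
    rintro rfl
    exact e0 (by norm_num)
  have : Fintype (GaloisField p k) := Fintype.ofFinite _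
  have hc : Fintype.card (GaloisField p k) = p ^ k := by
    rw [← Nat.card_eq_fintype_card, GaloisField.card p k hk]
  have hfr : Module.finrank (ZMod p) (GaloisField p k) = k := GaloisField.finrank p hk
  have hK : ringChar (GaloisField p k) ≠ 2 := by
    rw [← Algebra.ringChar_eq (ZMod p), ZMod.ringChar_zmod_n]
    exact hp2
  have hne : ∀ a : ℤ, ¬ (p : ℤ) ∣ a → (a : GaloisField p k) ≠ 0 := by
    intro a ha h'
    exact ha ((CharP.intCast_eq_zero_iff (GaloisField p k) p a).1 h')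
  have h1 := pts_bi (K := GaloisField p k) hK (by simp) hA hB h (hne α e1) (hne δ e2)
    (hne (dsc α β γ δ) e3)
  have hE : ∀ a b c : ℤ, ¬ (p : ℤ) ∣ a ^ 2 * b ^ 2 - 4 * b ^ 3 - 4 * a ^ 3 * c - 27 * c ^ 2 +
      18 * a * b * c → trE (a : GaloisField p k) b c = luc (ap a b c p) p k := by
    intro a b c hd
    have h2 := Pool.Agent.Y18.JT.s_cubext p hp2 a b c hd (GaloisField p k)
    rw [hfr] at h2
    unfold trE ap
    exact h2
  have d1 : ¬ (p : ℤ) ∣ β ^ 2 * (α * γ) ^ 2 - 4 * (α * γ) ^ 3 - 4 * β ^ 3 * (α ^ 2 * δ) -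
      27 * (α ^ 2 * δ) ^ 2 + 18 * β * (α * γ) * (α ^ 2 * δ) := by
    have : β ^ 2 * (α * γ) ^ 2 - 4 * (α * γ) ^ 3 - 4 * β ^ 3 * (α ^ 2 * δ) -
      27 * (α ^ 2 * δ) ^ 2 + 18 * β * (α * γ) * (α ^ 2 * δ) = α ^ 2 * dsc α β γ δ := by
      unfold dsc; ring
    rw [this]
    intro h'
    rcases hpi.dvd_or_dvd h' with h' | h'
    · exact e1 (hpi.dvd_of_dvd_pow h')
    · exact e3 h'
  have d2 : ¬ (p : ℤ) ∣ γ ^ 2 * (δ * β) ^ 2 - 4 * (δ * β) ^ 3 - 4 * γ ^ 3 * (δ ^ 2 * α) -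
      27 * (δ ^ 2 * α) ^ 2 + 18 * γ * (δ * β) * (δ ^ 2 * α) := by
    have : γ ^ 2 * (δ * β) ^ 2 - 4 * (δ * β) ^ 3 - 4 * γ ^ 3 * (δ ^ 2 * α) -
      27 * (δ ^ 2 * α) ^ 2 + 18 * γ * (δ * β) * (δ ^ 2 * α) = δ ^ 2 * dsc α β γ δ := by
      unfold dsc; ring
    rw [this]
    intro h'
    rcases hpi.dvd_or_dvd h' with h' | h'
    · exact e2 (hpi.dvd_of_dvd_pow h')
    · exact e3 h'
  have h3 := hE _ _ _ d1
  have h4 := hE _ _ _ d2
  push_cast at h3 h4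
  unfold tr
  rw [← h3, ← h4]
  rw [hc] at h1
  push_cast at h1
  exact h1

/-- **the Euler factor** -/
theorem euler {A B : Matrix (Fin 6) (Fin 6) ℤ} (hA : A.IsSymm) (hB : B.IsSymm) {α β γ δ : ℤ}
    (h : Disc A B α β γ δ) {p : ℕ} [Fact p.Prime] (hp : ¬ (p : ℤ) ∣ 2 * α * δ * dsc α β γ δ)
    {s : ℂ} (hs : (3 : ℝ) / 2 < s.re) :
    Summable (term A B p s) ∧ Complex.exp (∑' k, term A B p s k) =
      (1 - (ap β (α * γ) (α ^ 2 * δ) p : ℂ) * (p : ℂ) ^ (-(s - 1)) +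
        (p : ℂ) ^ (1 - 2 * (s - 1)))⁻¹ *
      (1 - (ap γ (δ * β) (δ ^ 2 * α) p : ℂ) * (p : ℂ) ^ (-(s - 1)) +
        (p : ℂ) ^ (1 - 2 * (s - 1)))⁻¹ := by
  have hpp : p.Prime := Fact.out
  have hp2 : p ≠ 2 := by
    rintro rfl
    exact hp ((((Dvd.intro 1 (by norm_num)).mul_right _).mul_right _).mul_right _)
  obtain ⟨a, b, hab, hab', na, nb⟩ := exists_ab (hasse hp2 β (α * γ) (α ^ 2 * δ))
  obtain ⟨c, d, hcd, hcd', nc, nd⟩ := exists_ab (hasse hp2 γ (δ * β) (δ ^ 2 * α))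
  have hab'' : a + b = ((ap β (α * γ) (α ^ 2 * δ) p : ℤ) : ℂ) := by rw [hab]; push_cast; rfl
  have hcd'' : c + d = ((ap γ (δ * β) (δ ^ 2 * α) p : ℤ) : ℂ) := by rw [hcd]; push_cast; rfl
  have := Pool.Agent.W5h35.CU.factor_gen hpp hab' hcd' na nb nc nd 1 1 1 (s := s)
    (f := term A B p s) (by push_cast; linarith) (fun k => by
      unfold term
      rw [tr_eq hA hB h hp (Nat.succ_ne_zero k)]
      push_cast
      rw [luc_eq hab'' (by rw [hab']; push_cast; rfl), luc_eq hcd'' (by rw [hcd']; push_cast; rfl)]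
      simp only [Nat.succ_eq_add_one]
      ring)
  rw [hab'', hcd''] at this
  simpa using this

end Pool.Agent.W5h36.TQ
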